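import Mathlib.Algebra.Group.MinimalAxioms
import Mathlib.Data.Int.Star
import Mathlib.Algebra.Order.Ring.Star
import Mathlib.Analysis.Complex.ExponentialBounds
import Mathlib.Combinatorics.Enumerative.DoubleCounting
import Mathlib.Combinatorics.Hindman
import Mathlib.Data.Set.Finite.List
import Mathlib.Order.CompletePartialOrder
import Pool.Agent.MP_53fe41_co.Cube

-- ======== part 0: formerly Pool.Agent.MP_53fe41_co.h88.Ultra
section MrgPart0

/-! From polychromatic colourings of large cubes to colourings of integer counting vectors,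
by a minimal idempotent ultrafilter on the free monoid. -/

namespace Pool.Agent.MP_53fe41_co.h88

open Filter

/-- In a compact right topological semigroup the integers act as counting vectors. -/
theorem exists_val {M : Type*} [Nonempty M] [Semigroup M] [TopologicalSpace M] [CompactSpace M]
    [T2Space M] (hc : ∀ r : M, Continuous (· * r)) (x0 x1 : M) :
    ∃ val : ℤ → M, (∀ a b, val a * x0 * val b = val (a + b)) ∧
      ∀ a b, val a * x1 * val b = val (a + 1 + b) := by
  let S : Set (Set M) := {N | IsClosed N ∧ N.Nonempty ∧ ∀ s : M, ∀ m ∈ N, s * m ∈ N}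
  obtain ⟨L, hL⟩ : ∃ L, Minimal (· ∈ S) L := by
    refine zorn_superset _ fun c hcs hc => ?_
    refine ⟨⋂₀ c, ⟨isClosed_sInter fun t ht => (hcs ht).1, ?_, fun s m hm => ?_⟩, fun s hs =>
      Set.sInter_subset_of_mem hs⟩
    · obtain rfl | hne := c.eq_empty_or_nonempty
      · rw [Set.sInter_empty]; exact Set.univ_nonempty
      have := hne.coe_sort
      rw [Set.sInter_eq_iInter]
      exact IsCompact.nonempty_iInter_of_directed_nonempty_isCompact_isClosed
        ((↑) : c → Set M) (DirectedOn.directed_val (IsChain.directedOn hc.symm))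
        (fun i => (hcs i.prop).2.1) (fun i => (hcs i.prop).1.isCompact) (fun i => (hcs i.prop).1)
    · rw [Set.mem_sInter]
      exact fun t ht => (hcs ht).2.2 s m (Set.mem_sInter.mp hm t ht)
  obtain ⟨hLc, hLne, hLm⟩ := hL.prop
  have hgen : ∀ x ∈ L, ∀ z ∈ L, ∃ y, y * x = z := by
    intro x hx z hz
    have : Set.range (· * x) = L := by
      apply hL.eq_of_subset
      · refine ⟨(isCompact_range (hc x)).isClosed, Set.range_nonempty _, ?_⟩
        rintro s _ ⟨y, rfl⟩
        exact ⟨s * y, mul_assoc _ _ _⟩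
      · rintro _ ⟨y, rfl⟩
        exact hLm y x hx
    rw [← this] at hz
    exact hz
  obtain ⟨p, hpL, hpp⟩ := exists_idempotent_in_compact_subsemigroup hc L hLne hLc.isCompact
    fun x _ y hy => hLm x y hy
  have hright : ∀ x ∈ L, x * p = x := by
    intro x hx
    obtain ⟨y, rfl⟩ := hgen p hpL x hx
    rw [mul_assoc, hpp]
  let G := {x : M // x ∈ L ∧ p * x = x}
  have hinv : ∀ x : G, ∃ y : G, y.1 * x.1 = p := by
    rintro ⟨x, hx, hpx⟩
    obtain ⟨y, hy⟩ := hgen x hx p hpL
    refine ⟨⟨p * y * p, hLm _ _ hpL, by rw [← mul_assoc, ← mul_assoc, hpp]⟩, ?_⟩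
    simp only [mul_assoc, hpx, hy, hpp]
  choose inv hinv using hinv
  let _ : Mul G := ⟨fun x y => ⟨x.1 * y.1, hLm _ _ y.2.1, by rw [← mul_assoc, x.2.2]⟩⟩
  let _ : One G := ⟨⟨p, hpL, hpp⟩⟩
  let _ : Inv G := ⟨inv⟩
  let _ : Group G := Group.ofLeftAxioms (fun a b c => Subtype.ext (mul_assoc _ _ _))
    (fun a => Subtype.ext a.2.2) (fun a => Subtype.ext (hinv a))
  have hmul : ∀ x y : G, (x * y).1 = x.1 * y.1 := fun _ _ => rfl
  let mk : M → G := fun x => ⟨p * x * p, hLm _ _ hpL, by rw [← mul_assoc, ← mul_assoc, hpp]⟩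
  have hmk : ∀ (g h : G) (x : M), g.1 * x * h.1 = (g * mk x * h).1 := by
    intro g h x
    rw [hmul, hmul]
    show _ = g.1 * (p * x * p) * h.1
    rw [← mul_assoc, ← mul_assoc, hright _ g.2.1, mul_assoc (g.1 * x) p, h.2.2]
  let E : G := (mk x0)⁻¹
  let t : G := E * mk x1
  refine ⟨fun v => (t ^ v * E).1, fun a b => ?_, fun a b => ?_⟩
  · rw [hmk]
    refine congrArg Subtype.val ?_
    have key : ∀ (u v w : G), u * w⁻¹ * w * v = u * v := fun u v w => by group
    rw [zpow_add, mul_assoc (t ^ a) (t ^ b)]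
    exact key _ _ _
  · rw [hmk]
    refine congrArg Subtype.val ?_
    have key : ∀ (u v w z : G), u * w * z * (v * w) = u * (w * z) * v * w := fun u v w z => by
      group
    rw [zpow_add, zpow_add, zpow_one]
    exact key _ _ _ _

attribute [local instance] Ultrafilter.mul Ultrafilter.semigroup

/-- Words in 0, 1 and the star. -/
abbrev Wd : Type := List (Option Bool)

/-- The refinement relation on letters. -/
def Rf (u v : Option Bool) : Prop := u = none ∨ v = u

/-- A colouring of the words with l stars in which every word with d stars has refinements of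
all colours. -/
def WPoly (d l q : ℕ) : Prop :=
  ∃ ψ : Wd → Fin q, ∀ L : Wd, L.count none = d → ∀ c, ∃ L', List.Forall₂ Rf L L' ∧
    L'.count none = l ∧ ψ L' = c

/-- Interleave the fillers with the letters. -/
def asm : Wd → List (List Bool) → Wd
  | s :: σ, g :: gs => g.map some ++ s :: asm σ gs
  | _, g :: _ => g.map some
  | _, [] => []

theorem count_map_some (g : List Bool) : (g.map some).count none = 0 := by
  rw [List.count_eq_zero]; simp

theorem count_asm : ∀ (σ : Wd) (gs : List (List Bool)), gs.length = σ.length + 1 →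
    (asm σ gs).count none = σ.count none
  | [], [g], _ => by simp [asm, count_map_some]
  | s :: σ, g :: gs, h => by
    have := count_asm σ gs (by simpa using h)
    simp [asm, count_map_some, List.count_cons, this]
  | [], [], h => by simp at h
  | [], _ :: _ :: _, h => by simp at h
  | _ :: _, [], h => by simp at h

theorem forall_map_some : ∀ (g : List Bool) (L L' : Wd),
    List.Forall₂ Rf (g.map some ++ L) L' → ∃ L'', L' = g.map some ++ L'' ∧ List.Forall₂ Rf L L''
  | [], L, L', h => ⟨L', rfl, h⟩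
  | b :: g, L, L', h => by
    simp only [List.map_cons, List.cons_append, List.forall₂_cons_left_iff] at h
    obtain ⟨v, L1, hv, h1, rfl⟩ := h
    obtain ⟨L'', rfl, h2⟩ := forall_map_some g L L1 h1
    rcases hv with hv | rfl
    · simp at hv
    · exact ⟨L'', rfl, h2⟩

theorem ref_asm : ∀ (d : ℕ) (gs : List (List Bool)), gs.length = d + 1 → ∀ L' : Wd,
    List.Forall₂ Rf (asm (List.replicate d none) gs) L' → ∃ σ : Wd, σ.length = d ∧ L' = asm σ gs
  | 0, [g], _, L', h => by
    obtain ⟨L'', rfl, h2⟩ := forall_map_some g [] L' (by simpa [asm] using h)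
    rw [List.forall₂_nil_left_iff] at h2
    exact ⟨[], rfl, by simp [asm, h2]⟩
  | d + 1, g :: gs, hl, L', h => by
    rw [List.replicate_succ, asm] at h
    obtain ⟨L'', rfl, h2⟩ := forall_map_some g _ L' h
    rw [List.forall₂_cons_left_iff] at h2
    obtain ⟨s, L1, -, h3, rfl⟩ := h2
    obtain ⟨σ, hσ, rfl⟩ := ref_asm d gs (by simpa using hl) L1 h3
    exact ⟨s :: σ, by simp [hσ], rfl⟩
  | 0, [], h, _, _ => by simp at h
  | 0, _ :: _ :: _, h, _, _ => by simp at h
  | _ + 1, [], h, _, _ => by simp at h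

/-- The embedding of star free ultrafilters. -/
def io (U : Ultrafilter (FreeMonoid Bool)) : Ultrafilter (FreeMonoid (Option Bool)) :=
  U.map (FreeMonoid.map some)

theorem io_mul (U V : Ultrafilter (FreeMonoid Bool)) : io (U * V) = io U * io V := by
  refine Ultrafilter.coe_inj.mp (Filter.ext' fun p => ?_)
  simp [io, Ultrafilter.eventually_mul, Ultrafilter.coe_map, eventually_map]

theorem io_pure (b : Bool) :
    io (pure (FreeMonoid.of b)) = pure (FreeMonoid.of (some b)) := rfl

/-- The ultrafilter of a counting vector with the given letters in place of the stars. -/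
def UU (val : ℤ → Ultrafilter (FreeMonoid Bool)) :
    List ℤ → Wd → Ultrafilter (FreeMonoid (Option Bool))
  | x0 :: x1 :: xs, s :: σ => io (val x0) * (pure (FreeMonoid.of s) * UU val (x1 :: xs) σ)
  | x0 :: _, _ => io (val x0)
  | [], _ => pure 1

theorem exists_fill (val : ℤ → Ultrafilter (FreeMonoid Bool)) :
    ∀ (d : ℕ) (x : List ℤ), x.length = d + 1 → ∀ A : Wd → Set (FreeMonoid (Option Bool)),
      (∀ σ : Wd, σ.length = d → A σ ∈ UU val x σ) →
      ∃ gs : List (List Bool), gs.length = d + 1 ∧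
        ∀ σ : Wd, σ.length = d → FreeMonoid.ofList (asm σ gs) ∈ A σ
  | 0, [x0], _, A, h => by
    obtain ⟨g, hg⟩ := (val x0).nonempty_of_mem (Ultrafilter.mem_map.1 (h [] rfl))
    refine ⟨[g.toList], rfl, fun σ hσ => ?_⟩
    rw [List.length_eq_zero_iff.1 hσ]
    exact hg
  | d + 1, x0 :: x1 :: xs, hx, A, h => by
    have h1 : ∀ σ ∈ {σ : Wd | σ.length = d + 1}, ∀ᶠ g in (val x0 : Filter (FreeMonoid Bool)),
        {L | FreeMonoid.map some g * (FreeMonoid.of (σ.headD none) * L) ∈ A σ} ∈
          UU val (x1 :: xs) σ.tail := by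
      intro σ hσ
      obtain ⟨s, σ', rfl⟩ := List.exists_cons_of_length_eq_add_one hσ
      exact h _ hσ
    obtain ⟨g, hg⟩ := ((eventually_all_finite (List.finite_length_eq _ _)).2 h1).exists
    obtain ⟨gs, hgs, h2⟩ := exists_fill val d (x1 :: xs) (by simpa using hx)
      (fun σ => ⋂ s, {L | FreeMonoid.map some g * (FreeMonoid.of s * L) ∈ A (s :: σ)})
      (fun σ hσ => by
        refine (Filter.iInter_mem (f := (UU val (x1 :: xs) σ).toFilter)).2 fun s => ?_
        exact hg (s :: σ) (by simpa using hσ))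
    refine ⟨g.toList :: gs, by simp [hgs], fun σ hσ => ?_⟩
    obtain ⟨s, σ', rfl⟩ := List.exists_cons_of_length_eq_add_one hσ
    exact Set.mem_iInter.1 (h2 σ' (by simpa using hσ)) s
  | 0, [], h, _, _ => by simp at h
  | 0, _ :: _ :: _, h, _, _ => by simp at h
  | _ + 1, [], h, _, _ => by simp at h
  | _ + 1, [_], h, _, _ => by simp at h

theorem UU_face (val : ℤ → Ultrafilter (FreeMonoid Bool))
    (hval : ∀ (b : Bool) (a a' : ℤ), val a * pure (FreeMonoid.of b) * val a' =
      val (a + (if b then 1 else 0) + a')) :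
    ∀ (σ : Wd) (x : List ℤ), x.length = σ.length + 1 → ∃ a : List ℤ, Face x a ∧
      a.length = σ.count none + 1 ∧ UU val x σ = UU val a (List.replicate (σ.count none) none)
  | [], [x0], _ => ⟨[x0], Face.single x0, rfl, rfl⟩
  | s :: σ, x0 :: x1 :: xs, h => by
    obtain ⟨a, h1, h2, h3⟩ := UU_face val hval σ (x1 :: xs) (by simpa using h)
    obtain ⟨a0, as, rfl⟩ := List.exists_cons_of_length_eq_add_one h2
    rcases s with _ | b
    · refine ⟨x0 :: a0 :: as, Face.keep x0 h1, by simpa using h2, ?_⟩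
      simp only [List.count_cons_self, List.replicate_succ, UU, h3]
    · have hc : (some b :: σ).count none = σ.count none := by simp
      refine ⟨_, Face.merge x0 b h1, by simpa using h2, ?_⟩
      rw [hc, UU, h3]
      rcases as with _ | ⟨a1, as⟩
      · simp only [UU]
        rw [← hval, io_mul, io_mul, io_pure, mul_assoc]
      · have : σ.count none = as.length + 1 := by simpa using h2.symm
        rw [this, List.replicate_succ]
        simp only [UU]
        rw [← hval, io_mul, io_mul, io_pure]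
        simp only [mul_assoc]
  | [], [], h => by simp at h
  | [], _ :: _ :: _, h => by simp at h
  | _ :: _, [], h => by simp at h
  | _ :: _, [_], h => by simp at h

theorem poly_of_wpoly {d l q : ℕ} (h : WPoly d l q) : Poly ℤ (d + 1) (l + 1) q := by
  obtain ⟨ψ, hψ⟩ := h
  obtain ⟨val, h0, h1⟩ := exists_val (M := Ultrafilter (FreeMonoid Bool))
    Ultrafilter.continuous_mul_left (pure (FreeMonoid.of false)) (pure (FreeMonoid.of true))
  have hval : ∀ (b : Bool) (a a' : ℤ), val a * pure (FreeMonoid.of b) * val a' =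
      val (a + (if b then 1 else 0) + a') := by
    intro b a a'
    cases b
    · simpa using h0 a a'
    · simpa using h1 a a'
  have hcol : ∀ U : Ultrafilter (FreeMonoid (Option Bool)), ∃ c : Fin q,
      U.map (fun L => ψ L.toList) = pure c := fun U => Ultrafilter.eq_pure_of_finite _
  choose col hcol using hcol
  refine ⟨fun a => col (UU val a (List.replicate l none)), fun x hx c hc => ?_⟩
  by_contra hcon
  push Not at hcon
  obtain ⟨gs, hgs, h2⟩ := exists_fill val d x hx
    (fun σ => {L | σ.count none = l → ψ L.toList ≠ ⟨c, hc⟩}) (fun σ hσ => by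
      by_cases hl : σ.count none = l
      · obtain ⟨a, ha1, ha2, ha3⟩ := UU_face val hval σ x (by rw [hx, hσ])
        rw [hl] at ha2 ha3
        have h3 := hcon a ha1 ha2
        rw [← ha3] at h3
        have h4 : {c' : Fin q | c' ≠ ⟨c, hc⟩} ∈ (UU val x σ).map (fun L => ψ L.toList) := by
          rw [hcol]
          exact fun h5 => h3 (congrArg Fin.val h5)
        exact Filter.mem_of_superset (Ultrafilter.mem_map.1 h4) fun L hL _ => hL
      · exact Filter.univ_mem' fun L h => absurd h hl)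
  obtain ⟨L', hL1, hL2, hL3⟩ := hψ (asm (List.replicate d none) gs)
    (by rw [count_asm _ _ (by simpa using hgs)]; simp) ⟨c, hc⟩
  obtain ⟨σ, hσ, rfl⟩ := ref_asm d gs hgs L' hL1
  rw [count_asm _ _ (by rw [hgs, hσ])] at hL2
  exact h2 σ hσ hL2 hL3

/-- The subcube of a word, padded with zeros. -/
def cubeOf (n : ℕ) (L : Wd) : Set (Fin n → Bool) :=
  {x | ∀ i : Fin n, ∀ b, L.getD i (some false) = some b → x i = b}

theorem ofFn_getD {n : ℕ} (L : Wd) (h : L.length ≤ n) :
    List.ofFn (fun i : Fin n => L.getD i (some false)) =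
      L ++ List.replicate (n - L.length) (some false) := by
  refine List.ext_getElem (by simp; omega) fun i h1 h2 => ?_
  rw [List.getElem_ofFn, List.getElem_append]
  split_ifs with hi
  · exact List.getD_eq_getElem _ _ hi
  · rw [List.getElem_replicate]; exact List.getD_eq_default _ _ (by simpa using hi)

theorem card_stars {n : ℕ} (L : Wd) (h : L.length ≤ n) :
    (Finset.univ.filter fun i : Fin n => L.getD i (some false) = none).card = L.count none := by
  rw [← count_none_ofFn, ofFn_getD L h]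
  simp [List.count_replicate]

theorem isSubcube_cubeOf {n : ℕ} (L : Wd) (h : L.length ≤ n) :
    IsSubcube n (L.count none) (cubeOf n L) := by
  refine ⟨_, card_stars L h, fun i => (L.getD i (some false)).getD false, ?_⟩
  ext x
  simp only [cubeOf, Set.mem_ofPred_eq, Finset.mem_filter, Finset.mem_univ, true_and]
  refine forall_congr' fun i => ?_
  cases L.getD i (some false) <;> simp

theorem exists_ref {n l : ℕ} (L : Wd) (h : L.length ≤ n) {A : Set (Fin n → Bool)}
    (hA : IsSubcube n l A) (hsub : A ⊆ cubeOf n L) :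
    ∃ L', List.Forall₂ Rf L L' ∧ L'.count none = l ∧ A = cubeOf n L' := by
  classical
  obtain ⟨S, hS, v, rfl⟩ := hA
  have key : ∀ (i : Fin n) (b : Bool), L.getD i (some false) = some b → i ∉ S ∧ v i = b := by
    intro i b hb
    refine ⟨fun hi => ?_, hsub (a := v) (fun _ _ => rfl) i b hb⟩
    have := hsub (a := Function.update v i (!b)) (fun j hj => by
      rw [Function.update_of_ne (by rintro rfl; exact hj hi)]) i b hb
    simp at this
  set f : Fin n → Option Bool := fun i => if i ∈ S then none else some (v i) with hf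
  set L' : Wd := List.ofFn fun j : Fin L.length => f (Fin.castLE h j) with hL'
  have hlen : L'.length = L.length := by simp [hL']
  have hget : ∀ i : Fin n, L'.getD i (some false) = f i := by
    intro i
    by_cases hi : (i : ℕ) < L.length
    · rw [List.getD_eq_getElem _ _ (by omega)]
      simp [hL']
    · rw [List.getD_eq_default _ _ (by omega)]
      obtain ⟨h1, h2⟩ := key i false (List.getD_eq_default _ _ (by omega))
      simp [hf, h1, h2]
  refine ⟨L', ?_, ?_, ?_⟩
  · rw [List.forall₂_iff_get]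
    refine ⟨hlen.symm, fun i h1 h2 => ?_⟩
    have e1 : L.get ⟨i, h1⟩ = L.getD (⟨i, by omega⟩ : Fin n) (some false) :=
      (List.getD_eq_getElem _ _ h1).symm
    have e2 : L'.get ⟨i, h2⟩ = f ⟨i, by omega⟩ := by
      rw [← hget]; exact (List.getD_eq_getElem _ _ h2).symm
    rw [e1, e2]
    rcases hb : L.getD (⟨i, by omega⟩ : Fin n) (some false) with _ | b
    · exact Or.inl rfl
    · obtain ⟨h3, h4⟩ := key _ b hb
      exact Or.inr (by simp [hf, h3, h4])
  · rw [← card_stars (n := n) L' (hlen ▸ h), ← hS]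
    congr 1
    ext i
    simp only [Finset.mem_filter, Finset.mem_univ, true_and, hget]
    by_cases hi : i ∈ S <;> simp [hf, hi]
  · ext x
    simp only [cubeOf, Set.mem_ofPred_eq, hget]
    refine forall_congr' fun i => ?_
    by_cases hi : i ∈ S <;> simp [hf, hi]

theorem exists_colouring {l d n q : ℕ} (hdn : d ≤ n) (hq0 : 0 < q) (hq : q ≤ pc l n d) :
    ∃ χ : {A : Set (Fin n → Bool) // IsSubcube n l A} → Fin q, IsPolychromatic n d l q χ := by
  classical
  have hbdd : BddAbove {q : ℕ | ∃ χ : {A : Set (Fin n → Bool) // IsSubcube n l A} → Fin q,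
      IsPolychromatic n d l q χ} := by
    refine ⟨Fintype.card {A : Set (Fin n → Bool) // IsSubcube n l A}, ?_⟩
    rintro q' ⟨χ, hχ⟩
    obtain ⟨S, -, hS⟩ := Finset.exists_subset_card_eq (s := (Finset.univ : Finset (Fin n)))
      (n := d) (by simpa using hdn)
    have hsurj : Function.Surjective χ := fun c => by
      obtain ⟨A, -, hA⟩ := hχ _ ⟨S, hS, fun _ => false, rfl⟩ c
      exact ⟨A, hA⟩
    simpa using Fintype.card_le_of_surjective χ hsurj
  have hne : {q : ℕ | ∃ χ : {A : Set (Fin n → Bool) // IsSubcube n l A} → Fin q,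
      IsPolychromatic n d l q χ}.Nonempty := by
    by_contra hne
    rw [Set.not_nonempty_iff_eq_empty] at hne
    rw [pc, hne] at hq
    simp at hq
    omega
  obtain ⟨χ, hχ⟩ : ∃ χ : {A : Set (Fin n → Bool) // IsSubcube n l A} → Fin (pc l n d),
      IsPolychromatic n d l (pc l n d) χ := Nat.sSup_mem hne hbdd
  refine ⟨fun A => if h : (χ A : ℕ) < q then ⟨_, h⟩ else ⟨0, hq0⟩, fun B hB c => ?_⟩
  obtain ⟨A, hA1, hA2⟩ := hχ B hB ⟨c, lt_of_lt_of_le c.2 hq⟩
  exact ⟨A, hA1, by simp [hA2]⟩

theorem wpoly_of_frequently {l d q : ℕ} (hq0 : 0 < q) (h : ∃ᶠ n in atTop, q ≤ pc l n d) :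
    WPoly d l q := by
  classical
  have hne : (atTop ⊓ 𝓟 {n | q ≤ pc l n d} : Filter ℕ).NeBot := frequently_iff_neBot.1 h
  set 𝒰 := Ultrafilter.of (atTop ⊓ 𝓟 {n | q ≤ pc l n d} : Filter ℕ) with h𝒰
  have hle : (𝒰 : Filter ℕ) ≤ atTop ⊓ 𝓟 {n | q ≤ pc l n d} := Ultrafilter.of_le _
  have hex : ∀ n, ∃ χ : {A : Set (Fin n → Bool) // IsSubcube n l A} → Fin q,
      d ≤ n → q ≤ pc l n d → IsPolychromatic n d l q χ := by
    intro n
    by_cases hn : d ≤ n ∧ q ≤ pc l n d
    · obtain ⟨χ, hχ⟩ := exists_colouring hn.1 hq0 hn.2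
      exact ⟨χ, fun _ _ => hχ⟩
    · exact ⟨fun _ => ⟨0, hq0⟩, fun h1 h2 => absurd ⟨h1, h2⟩ hn⟩
  choose χ hχ using hex
  set ψ : ℕ → Wd → Fin q := fun n L =>
    if h : IsSubcube n l (cubeOf n L) then χ n ⟨_, h⟩ else ⟨0, hq0⟩ with hψ
  have hcol : ∀ L : Wd, ∃ c : Fin q, 𝒰.map (fun n => ψ n L) = pure c :=
    fun L => Ultrafilter.eq_pure_of_finite _
  choose col hcol using hcol
  refine ⟨col, fun L hL c => ?_⟩
  have hfin : {L' : Wd | List.Forall₂ Rf L L' ∧ L'.count none = l}.Finite :=
    (List.finite_length_eq _ L.length).subset fun L' hL' => hL'.1.length_eq.symm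
  have hmem : (⋃ L' ∈ {L' : Wd | List.Forall₂ Rf L L' ∧ L'.count none = l},
      {n | ψ n L' = c}) ∈ 𝒰 := by
    have h1 : {n | L.length ≤ n} ∩ {n | q ≤ pc l n d} ∈ 𝒰 :=
      hle (inter_mem_inf (mem_atTop _) (mem_principal_self _))
    refine Filter.mem_of_superset h1 fun n hn => ?_
    have hdn : d ≤ n := hL ▸ (List.count_le_length).trans hn.1
    obtain ⟨A, hA1, hA2⟩ := hχ n hdn hn.2 _ (hL ▸ isSubcube_cubeOf L hn.1) c
    obtain ⟨L', h2, h3, h4⟩ := exists_ref L hn.1 A.2 hA1
    refine Set.mem_biUnion (x := L') ⟨h2, h3⟩ ?_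
    have h5 : IsSubcube n l (cubeOf n L') := h4 ▸ A.2
    simp only [hψ, Set.mem_ofPred_eq, dif_pos h5]
    rw [← hA2]
    exact congrArg _ (Subtype.ext h4.symm)
  obtain ⟨L', hL', h6⟩ := (Ultrafilter.finite_biUnion_mem_iff hfin).1 hmem
  refine ⟨L', hL'.1, hL'.2, ?_⟩
  have h7 : ({c} : Set (Fin q)) ∈ 𝒰.map (fun n => ψ n L') := Ultrafilter.mem_map.2 h6
  rw [hcol] at h7
  exact h7

/-- Colourings of large cubes give colourings of integer counting vectors. -/
theorem eventually_lt_of_not_poly {l d q : ℕ} (hq0 : 0 < q) (h : ¬ Poly ℤ (d + 1) (l + 1) q) :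
    ∃ N, ∀ n, N ≤ n → pc l n d < q := by
  by_contra hcon
  refine h (poly_of_wpoly (wpoly_of_frequently hq0 ?_))
  rw [frequently_atTop]
  push Not at hcon
  exact hcon

end Pool.Agent.MP_53fe41_co.h88

end MrgPart0

-- ======== part 1: formerly Pool.Agent.MP_53fe41_co.h88.Kill
section MrgPart1

/-! Deleting letters from a staircase word to destroy a given face. -/

namespace Pool.Agent.MP_53fe41_co.h88

open Finset

/-- The staircase word: runs of length w with alternating letters. -/
def yy (w i : ℕ) : Bool := decide ((i / w) % 2 = 0)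

/-- The number of letters b outside K in the interval from x to x'. -/
def cnt (w : ℕ) (K : Finset ℕ) (b : Bool) (x x' : ℕ) : ℕ :=
  ((Ico x x').filter fun i => i ∉ K ∧ yy w i = b).card

/-- The vector can be read off the staircase word from x to n with the positions K deleted. -/
def Emb (w n : ℕ) (K : Finset ℕ) : ℕ → List ℤ → Prop
  | _, [] => True
  | x, v :: as => ∃ x', x' ≤ n ∧ -(cnt w K false x x' : ℤ) ≤ v ∧
      v < cnt w K true x x' ∧ Emb w n K x' as

/-- The counting vector of the staircase word with the positions K deleted. -/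
def wd (w : ℕ) (K : Finset ℕ) : ℕ → ℕ → List ℤ
  | _, 0 => []
  | x, k + 1 => if x ∈ K then wd w K (x + 1) k else (if yy w x then 0 else -1) :: wd w K (x + 1) k

theorem cnt_le {w : ℕ} {K K' : Finset ℕ} {b : Bool} {x x' z z' : ℕ}
    (h : ∀ i, x ≤ i → i < x' → i ∉ K → yy w i = b → z ≤ i ∧ i < z' ∧ i ∉ K') :
    cnt w K b x x' ≤ cnt w K' b z z' := by
  refine card_le_card fun i hi => ?_
  simp only [mem_filter, mem_Ico] at hi ⊢
  obtain ⟨h1, h2, h3⟩ := h i hi.1.1 hi.1.2 hi.2.1 hi.2.2
  exact ⟨⟨h1, h2⟩, h3, hi.2.2⟩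

theorem cnt_left {w : ℕ} {K : Finset ℕ} (b : Bool) {x x' : ℕ} (h : x < x') (hK : x ∉ K) :
    cnt w K b x x' = cnt w K b (x + 1) x' + if yy w x = b then 1 else 0 := by
  rw [cnt, cnt, ← insert_Ico_add_one_left_eq_Ico h, filter_insert]
  by_cases hb : yy w x = b
  · rw [if_pos ⟨hK, hb⟩, card_insert_of_notMem (by simp), if_pos hb]
  · rw [if_neg (fun h => hb h.2), if_neg hb, add_zero]

theorem cnt_self (w : ℕ) (K : Finset ℕ) (b : Bool) {x x' : ℕ} (h : x' ≤ x) :
    cnt w K b x x' = 0 := by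
  simp [cnt, Ico_eq_empty_of_le h]

theorem length_wd (w : ℕ) (K : Finset ℕ) : ∀ k x, (wd w K x k).length = (Ico x (x + k) \ K).card
  | 0, x => by simp [wd]
  | k + 1, x => by
    have h : x + (k + 1) = x + 1 + k := by omega
    rw [wd, ← insert_Ico_add_one_left_eq_Ico (by omega), h]
    split_ifs with hx
    · rw [length_wd w K k, insert_sdiff_of_mem _ hx]
    · rw [List.length_cons, length_wd w K k, insert_sdiff_of_notMem _ hx,
        card_insert_of_notMem (by simp)]
    · rw [List.length_cons, length_wd w K k, insert_sdiff_of_notMem _ hx,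
        card_insert_of_notMem (by simp)]

theorem emb_of_face {w n : ℕ} {K : Finset ℕ} :
    ∀ k x (a : List ℤ), x + k = n → Face (wd w K x k) a → Emb w n K x a
  | 0, x, a, _, h => absurd rfl h.ne_nil_left
  | k + 1, x, a, hn, h => by
    have ih := fun a => emb_of_face (w := w) (n := n) (K := K) k (x + 1) a (by omega)
    rw [wd] at h
    by_cases hx : x ∈ K
    · rw [if_pos hx] at h
      have h1 := ih a h
      rcases a with _ | ⟨v, as⟩
      · trivial
      · obtain ⟨x', h2, h3, h4, h5⟩ := h1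
        have h6 : ∀ b, cnt w K b (x + 1) x' ≤ cnt w K b x x' := fun b =>
          cnt_le fun i h1 h2 h3 _ => ⟨by omega, h2, h3⟩
        have := h6 true
        have := h6 false
        exact ⟨x', h2, by omega, by omega, h5⟩
    · rw [if_neg hx] at h
      have h0 : ∀ as, Emb w n K (x + 1) as →
          Emb w n K x ((if yy w x then 0 else -1) :: as) := by
        intro as has
        refine ⟨x + 1, by omega, ?_, ?_, has⟩ <;>
          rw [cnt_left _ (Nat.lt_succ_self x) hx, cnt_self _ _ _ le_rfl] <;>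
          cases yy w x <;> simp
      generalize he : wd w K (x + 1) k = u at h ih
      cases h with
      | single => exact h0 [] trivial
      | keep _ h => exact h0 _ (ih _ h)
      | merge _ b h =>
        obtain ⟨x', h2, h3, h4, h5⟩ := ih _ h
        have hx' : x < x' := by
          by_contra hlt
          rw [cnt_self _ _ _ (by omega)] at h3 h4
          omega
        refine ⟨x', h2, ?_, ?_, h5⟩ <;> rw [cnt_left _ hx' hx] <;>
          cases yy w x <;> cases b <;> simp <;> omega

/-- The entry of a part which starts at x and whose demand is met at the position p. -/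
def valOf (w x p : ℕ) : ℤ :=
  if yy w p then cnt w ∅ true x p else -(cnt w ∅ false x p : ℤ) - 1

/-- The vector of a list of positions. -/
def aOf (w : ℕ) : ℕ → List ℕ → List ℤ
  | _, [] => []
  | x, p :: ps => valOf w x p :: aOf w (p + 1) ps

theorem length_aOf (w : ℕ) : ∀ (ps : List ℕ) (x : ℕ), (aOf w x ps).length = ps.length
  | [], _ => rfl
  | p :: ps, _ => by simp [aOf, length_aOf w ps]

theorem exists_pos {w : ℕ} {b : Bool} {x c : ℕ} : ∀ z, c < cnt w ∅ b x z →
    ∃ p, x ≤ p ∧ p < z ∧ yy w p = b ∧ cnt w ∅ b x p = c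
  | 0, h => by simp [cnt] at h
  | z + 1, h => by
    by_cases h1 : c < cnt w ∅ b x z
    · obtain ⟨p, h2, h3, h4⟩ := exists_pos z h1
      exact ⟨p, h2, by omega, h4⟩
    · have hx : x ≤ z := by
        by_contra hx
        rw [cnt_self _ _ _ (by omega)] at h
        omega
      rw [cnt, ← insert_Ico_right_eq_Ico_add_one hx, filter_insert] at h
      split_ifs at h with h2
      · rw [card_insert_of_notMem (by simp)] at h
        exact ⟨z, hx, by omega, h2.2, by rw [cnt] at h1 ⊢; omega⟩
      · exact absurd h h1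

theorem exists_chain {w n : ℕ} {K : Finset ℕ} : ∀ (as : List ℤ) (x x' : ℕ), x ≤ x' →
    Emb w n K x' as → ∃ ps : List ℕ, ps.Pairwise (· < ·) ∧ (∀ p ∈ ps, x ≤ p ∧ p < n) ∧
      aOf w x ps = as
  | [], _, _, _, _ => ⟨[], by simp, by simp, rfl⟩
  | v :: as, x, x', hx, ⟨z, h1, h2, h3, h4⟩ => by
    have h5 : ∀ b, cnt w K b x' z ≤ cnt w ∅ b x z := fun b =>
      cnt_le fun i h1 h2 _ _ => ⟨by omega, h2, by simp⟩
    obtain ⟨p, hp1, hp2, hp3⟩ : ∃ p, x ≤ p ∧ p < z ∧ valOf w x p = v := by
      by_cases hv : 0 ≤ v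
      · obtain ⟨p, h6, h7, h8, h9⟩ := exists_pos (w := w) (b := true) (x := x) (c := v.toNat) z
          (by have := h5 true; omega)
        exact ⟨p, h6, h7, by rw [valOf, if_pos h8, h9]; omega⟩
      · obtain ⟨p, h6, h7, h8, h9⟩ := exists_pos (w := w) (b := false) (x := x)
          (c := (-v - 1).toNat) z (by have := h5 false; omega)
        exact ⟨p, h6, h7, by rw [valOf, if_neg (by simp [h8]), h9]; omega⟩
    obtain ⟨ps, h6, h7, h8⟩ := exists_chain as (p + 1) z hp2 h4
    refine ⟨p :: ps, List.pairwise_cons.2 ⟨fun r hr => (h7 r hr).1, h6⟩, ?_, by rw [aOf, hp3, h8]⟩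
    intro r hr
    rcases List.mem_cons.1 hr with rfl | hr
    · omega
    · have := h7 r hr
      omega

theorem yy_shift {w : ℕ} (hw : 0 < w) (i j : ℕ) : yy w (i + 2 * w * j) = yy w i := by
  have : i + 2 * w * j = i + w * (2 * j) := by ring
  rw [yy, yy, this, Nat.add_mul_div_left _ _ hw]
  congr 1
  apply propext
  omega

theorem cnt_shift {w : ℕ} (hw : 0 < w) (b : Bool) (x p j : ℕ) :
    cnt w ∅ b (x + 2 * w * j) (p + 2 * w * j) ≤ cnt w ∅ b x p := by
  refine card_le_card_of_injOn (fun i => i - 2 * w * j) (fun i hi => ?_) fun i hi i' hi' h => ?_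
  · simp only [coe_filter, mem_Ico, Set.mem_ofPred_eq] at hi ⊢
    refine ⟨by omega, by simp, ?_⟩
    rw [← yy_shift hw _ j, Nat.sub_add_cancel (by omega)]
    exact hi.2.2
  · simp only [coe_filter, mem_Ico, Set.mem_ofPred_eq] at hi hi' h
    omega

theorem demand {w : ℕ} {K : Finset ℕ} {x p x' z : ℕ}
    (h1 : -(cnt w K false x' z : ℤ) ≤ valOf w x p) (h2 : valOf w x p < cnt w K true x' z) :
    cnt w ∅ (yy w p) x p < cnt w K (yy w p) x' z := by
  rw [valOf] at h1 h2
  cases h : yy w p <;> simp only [h, if_true, Bool.false_eq_true, if_false] at h1 h2 <;> omega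

theorem delay {w : ℕ} (hw : 0 < w) {K : Finset ℕ} {x p j x' z : ℕ}
    (hinv : ∀ i, x' ≤ i → i < x + 2 * w * j → yy w i ≠ yy w p)
    (h1 : -(cnt w K false x' z : ℤ) ≤ valOf w x p) (h2 : valOf w x p < cnt w K true x' z) :
    ∃ i, p + 2 * w * j ≤ i ∧ i < z ∧ i ∉ K ∧ yy w i = yy w p := by
  by_contra hcon
  push Not at hcon
  refine absurd (demand h1 h2) (not_lt.2 (le_trans (cnt_le fun i h3 h4 h5 h6 => ?_)
    (cnt_shift hw _ x p j)))
  refine ⟨?_, ?_, by simp⟩
  · by_contra h7
    exact hinv i h3 (by omega) h6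
  · by_contra h7
    exact hcon i (by omega) h4 h5 h6

/-- The end of the run of p. -/
def lend (w p : ℕ) : ℕ := (p / w + 1) * w

theorem yy_of_mem {w k i : ℕ} (h1 : k * w ≤ i) (h2 : i < (k + 1) * w) :
    yy w i = decide (k % 2 = 0) := by
  rw [yy, Nat.div_eq_of_lt_le h1 h2]

theorem kill {w n : ℕ} (hw : 0 < w) : ∀ (ps : List ℕ) (p x j L : ℕ) (T : Finset ℕ),
    (p :: ps).Pairwise (· < ·) → (∃ r ∈ p :: ps, L ≤ r) →
    (∀ r ∈ T, r ∈ p :: ps ∧ ∃ r' ∈ p :: ps, r < r' ∧ yy w r' ≠ yy w r ∧
      ∀ s ∈ p :: ps, r < s → r' ≤ s) →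
    ∃ K : Finset ℕ, K.card ≤ ∑ r ∈ T, (lend w r - r) + (n - (L + 2 * w * (j + T.card))) ∧
      ∀ K' : Finset ℕ, (∀ i ∈ K, i < n → i ∈ K') → ∀ x',
        (∀ i, x' ≤ i → i < x + 2 * w * j → yy w i ≠ yy w p) →
        ¬ Emb w n K' x' (aOf w x (p :: ps))
  | [], p, x, j, L, T, _, hL, hT => by
    have hT0 : T = ∅ := eq_empty_of_forall_notMem fun r hr => by
      obtain ⟨h1, r', h2, h3, -⟩ := hT r hr
      simp only [List.mem_singleton] at h1 h2
      omega
    simp only [List.mem_singleton, exists_eq_left] at hL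
    refine ⟨Ico (p + 2 * w * j) n, by simp [hT0]; omega, ?_⟩
    rintro K' hK' x' hinv ⟨z, h1, h2, h3, -⟩
    obtain ⟨i, h4, h5, h6, -⟩ := delay hw hinv h2 h3
    exact h6 (hK' i (mem_Ico.2 ⟨h4, by omega⟩) (by omega))
  | p' :: ps, p, x, j, L, T, hs, hL, hT => by
    obtain ⟨hs1, hs2⟩ := List.pairwise_cons.1 hs
    have hpp : p < p' := hs1 p' (by simp)
    have hp' : ∀ s ∈ p' :: ps, p' ≤ s := fun s hs => by
      rcases List.mem_cons.1 hs with rfl | hs
      · exact le_rfl
      · exact ((List.pairwise_cons.1 hs2).1 s hs).le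
    have hL' : ∃ r ∈ p' :: ps, L ≤ r := by
      obtain ⟨r, hr, hr'⟩ := hL
      rcases List.mem_cons.1 hr with rfl | hr
      · exact ⟨p', by simp, by omega⟩
      · exact ⟨r, hr, hr'⟩
    have hT' : ∀ r ∈ T.erase p, r ∈ p' :: ps ∧ ∃ r' ∈ p' :: ps, r < r' ∧ yy w r' ≠ yy w r ∧
        ∀ s ∈ p' :: ps, r < s → r' ≤ s := by
      intro r hr
      obtain ⟨h1, r', h2, h3, h4, h5⟩ := hT r (mem_of_mem_erase hr)
      have h6 := (List.mem_cons.1 h1).resolve_left (ne_of_mem_erase hr)
      have h7 := hs1 r h6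
      exact ⟨h6, r', (List.mem_cons.1 h2).resolve_left (by omega), h3, h4,
        fun s hs => h5 s (List.mem_cons_of_mem _ hs)⟩
    by_cases hp : p ∈ T
    · obtain ⟨K, hK1, hK2⟩ := kill (n := n) hw ps p' (p + 1) (j + 1) L _ hs2 hL' hT'
      obtain ⟨-, r', h2, h3, h4, h5⟩ := hT p hp
      have h6 : r' = p' := le_antisymm (h5 p' (by simp) hpp)
        (hp' r' ((List.mem_cons.1 h2).resolve_left (by omega)))
      subst h6
      refine ⟨K ∪ Ico (p + 2 * w * j) (lend w p + 2 * w * j), ?_, ?_⟩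
      · refine (card_union_le _ _).trans ?_
        rw [← add_sum_erase _ _ hp, ← card_erase_add_one hp, Nat.card_Ico]
        have : j + ((T.erase p).card + 1) = j + 1 + (T.erase p).card := by omega
        rw [this]
        omega
      · rintro K' hK' x' hinv ⟨z, h7, h8, h9, h10⟩
        obtain ⟨i, h11, h12, h13, h14⟩ := delay hw hinv h8 h9
        refine hK2 K' (fun i hi => hK' i (mem_union_left _ hi)) z (fun i' h15 h16 => ?_) h10
        have e0 : yy w p = decide (p / w % 2 = 0) := rfl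
        have e1 : p < lend w p := by
          rw [lend, mul_comm]; exact Nat.lt_mul_div_succ p hw
        have e2 : lend w p + 2 * w * j ≤ i := by
          by_contra h17
          exact h13 (hK' i (mem_union_right _ (mem_Ico.2 ⟨h11, by omega⟩)) (by omega))
        rw [lend] at e1 e2
        have e3 : (p / w + 2 * j + 2) * w ≤ i := by
          by_contra h17
          rw [yy_of_mem (w := w) (k := p / w + 2 * j + 1) (by linarith) (by linarith), e0,
            decide_eq_decide] at h14
          omega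
        rw [yy_of_mem (w := w) (k := p / w + 2 * j + 2) (by omega) (by nlinarith)]
        intro h18
        apply h4
        rw [← h18, e0, decide_eq_decide]
        omega
    · obtain ⟨K, hK1, hK2⟩ := kill (n := n) hw ps p' (p + 1) j L _ hs2 hL' hT'
      rw [erase_eq_of_notMem hp] at hK1
      refine ⟨K, hK1, ?_⟩
      rintro K' hK' x' hinv ⟨z, h7, h8, h9, h10⟩
      obtain ⟨i, h11, h12, -⟩ := delay hw hinv h8 h9
      exact hK2 K' hK' z (fun i' h15 h16 => by omega) h10

/-- The lifting inequality. -/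
theorem lift {w D U m q : ℕ} (h : Poly ℤ D m q) (cost : Finset ℕ → ℕ)
    (hc : ∀ ps : List ℕ, ps.Pairwise (· < ·) → ps.toFinset ∈ powersetCard m (range (D + U)) →
      cost ps.toFinset ≤ U → ∃ K : Finset ℕ, K.card ≤ cost ps.toFinset ∧
        ∀ K' : Finset ℕ, (∀ i ∈ K, i < D + U → i ∈ K') → ¬ Emb w (D + U) K' 0 (aOf w 0 ps)) :
    q * (U + 1) ≤ ∑ P ∈ powersetCard m (range (D + U)), cost P := by
  obtain ⟨χ, hχ⟩ := h
  have hc' : ∀ P : Finset ℕ, ∃ K : Finset ℕ, P ∈ powersetCard m (range (D + U)) → cost P ≤ U →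
      K.card ≤ cost P ∧ ∀ K' : Finset ℕ, (∀ i ∈ K, i < D + U → i ∈ K') →
        ¬ Emb w (D + U) K' 0 (aOf w 0 P.sort) := by
    intro P
    by_cases hP : P ∈ powersetCard m (range (D + U)) ∧ cost P ≤ U
    · have := hc P.sort P.sortedLT_sort.pairwise
      rw [sort_toFinset] at this
      obtain ⟨K, hK⟩ := this hP.1 hP.2
      exact ⟨K, fun _ _ => hK⟩
    · exact ⟨∅, fun h1 h2 => absurd ⟨h1, h2⟩ hP⟩
  choose KP hKP using hc'
  have key : ∀ c ∈ range q, U + 1 ≤ ∑ P ∈ powersetCard m (range (D + U)) with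
      χ (aOf w 0 P.sort) = c, cost P := by
    intro c hc
    by_contra hlt
    set S := (powersetCard m (range (D + U))).filter fun P => χ (aOf w 0 P.sort) = c with hS
    have h1 : ∀ P ∈ S, cost P ≤ U := fun P hP => by
      have := single_le_sum (f := cost) (fun _ _ => Nat.zero_le _) hP
      omega
    have h2 : (S.biUnion KP ∩ range (D + U)).card ≤ U := by
      refine (card_le_card inter_subset_left).trans (card_biUnion_le.trans ?_)
      have : ∑ P ∈ S, (KP P).card ≤ ∑ P ∈ S, cost P :=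
        sum_le_sum fun P hP => (hKP P (mem_filter.1 hP).1 (h1 P hP)).1
      omega
    obtain ⟨K', h3, h4, h5⟩ := exists_subsuperset_card_eq
      (inter_subset_right : S.biUnion KP ∩ range (D + U) ⊆ _) h2 (by simp)
    obtain ⟨a, ha1, ha2, ha3⟩ := hχ (wd w K' 0 (D + U)) (by
      rw [length_wd, zero_add, ← range_eq_Ico, card_sdiff_of_subset h4, h5]; simp) c
      (mem_range.1 hc)
    have h6 := emb_of_face (n := D + U) _ _ _ (zero_add _) ha1
    obtain ⟨ps, h7, h8, h9⟩ := exists_chain a 0 0 le_rfl h6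
    have hnd : ps.Nodup := h7.imp ne_of_lt
    have h10 : ps.toFinset.sort = ps := (List.toFinset_sort _ hnd).2 (h7.imp le_of_lt)
    have h11 : ps.toFinset ∈ S := by
      rw [hS, mem_filter, h10, h9, mem_powersetCard, List.toFinset_card_of_nodup hnd,
        ← length_aOf w ps 0, h9]
      exact ⟨⟨fun p hp => mem_range.2 (h8 p (List.mem_toFinset.1 hp)).2, ha2⟩, ha3⟩
    refine (hKP _ (mem_filter.1 h11).1 (h1 _ h11)).2 K' (fun i hi hi' => h3 ?_) (by rwa [h10, h9])
    exact mem_inter.2 ⟨mem_biUnion.2 ⟨_, h11, hi⟩, mem_range.2 hi'⟩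
  have h12 := sum_le_sum key
  rw [sum_const, card_range, smul_eq_mul] at h12
  exact h12.trans (sum_fiberwise_le_sum_of_sum_fiber_nonneg fun _ _ => Nat.zero_le _)

end Pool.Agent.MP_53fe41_co.h88

end MrgPart1

-- ======== part 2: formerly Pool.Agent.MP_53fe41_co.h88.Count
section MrgPart2

/-! Counting the sets of positions for which no cheap deletion is available. -/

namespace Pool.Agent.MP_53fe41_co.h88

open Finset

theorem sum_pow_card (x : ℝ) (S : Finset ℕ) : ∑ Q ∈ S.powerset, x ^ Q.card = (1 + x) ^ S.card := by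
  rw [add_comm, ← sum_pow_mul_eq_add_pow]
  simp

theorem prod_formula {x : ℝ} (hx : 0 ≤ x) (A B : ℕ → Finset ℕ) (t w : ℕ) (Γ : Finset ℕ) :
    ∀ S : Finset ℕ, (∀ i ∈ Γ, A i ⊆ S ∧ B i ⊆ S ∧ (A i).card = t ∧ (B i).card = w ∧
      Disjoint (A i) (B i)) →
    (∀ i ∈ Γ, ∀ i' ∈ Γ, i ≠ i' → Disjoint (A i ∪ B i) (A i' ∪ B i')) →
    ∑ Q ∈ S.powerset with (∀ i ∈ Γ, Disjoint Q (A i) ∨ Disjoint Q (B i)), x ^ Q.card =
      (1 - (1 - ((1 + x) ^ t)⁻¹) * (1 - ((1 + x) ^ w)⁻¹)) ^ Γ.card * (1 + x) ^ S.card := by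
  induction Γ using Finset.induction_on with
  | empty => intro S _ _; simp [sum_pow_card]
  | insert a Γ ha ih =>
    intro S h1 h2
    obtain ⟨hA, hB, hAc, hBc, hAB⟩ := h1 a (mem_insert_self _ _)
    have key : ∀ C : Finset ℕ, C ⊆ A a ∪ B a →
        ∑ Q ∈ (S \ C).powerset with (∀ i ∈ Γ, Disjoint Q (A i) ∨ Disjoint Q (B i)), x ^ Q.card =
        (1 - (1 - ((1 + x) ^ t)⁻¹) * (1 - ((1 + x) ^ w)⁻¹)) ^ Γ.card * (1 + x) ^ S.card *
          ((1 + x) ^ C.card)⁻¹ := by
      intro C hC
      have hCS : C ⊆ S := hC.trans (union_subset hA hB)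
      rw [ih (S \ C) (fun i hi => ?_) fun i hi i' hi' =>
        h2 i (mem_insert_of_mem hi) i' (mem_insert_of_mem hi')]
      · rw [← card_sdiff_add_card_eq_card hCS, pow_add]
        field_simp
      · obtain ⟨h3, h4, h5⟩ := h1 i (mem_insert_of_mem hi)
        have h6 := h2 i (mem_insert_of_mem hi) a (mem_insert_self _ _) (by rintro rfl; exact ha hi)
        exact ⟨subset_sdiff.2 ⟨h3, h6.mono subset_union_left hC⟩,
          subset_sdiff.2 ⟨h4, h6.mono subset_union_right hC⟩, h5⟩
    have e := sum_union_inter (f := fun Q : Finset ℕ => x ^ Q.card)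
      (s₁ := (S \ A a).powerset.filter fun Q => ∀ i ∈ Γ, Disjoint Q (A i) ∨ Disjoint Q (B i))
      (s₂ := (S \ B a).powerset.filter fun Q => ∀ i ∈ Γ, Disjoint Q (A i) ∨ Disjoint Q (B i))
    have e1 : ((S \ A a).powerset.filter fun Q => ∀ i ∈ Γ, Disjoint Q (A i) ∨ Disjoint Q (B i)) ∪
        ((S \ B a).powerset.filter fun Q => ∀ i ∈ Γ, Disjoint Q (A i) ∨ Disjoint Q (B i)) =
        S.powerset.filter fun Q => ∀ i ∈ insert a Γ, Disjoint Q (A i) ∨ Disjoint Q (B i) := by
      ext Q
      simp only [mem_union, mem_filter, mem_powerset, subset_sdiff, forall_mem_insert]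
      tauto
    have e2 : ((S \ A a).powerset.filter fun Q => ∀ i ∈ Γ, Disjoint Q (A i) ∨ Disjoint Q (B i)) ∩
        ((S \ B a).powerset.filter fun Q => ∀ i ∈ Γ, Disjoint Q (A i) ∨ Disjoint Q (B i)) =
        (S \ (A a ∪ B a)).powerset.filter
          fun Q => ∀ i ∈ Γ, Disjoint Q (A i) ∨ Disjoint Q (B i) := by
      ext Q
      simp only [mem_inter, mem_filter, mem_powerset, subset_sdiff, disjoint_union_right]
      tauto
    rw [e1, e2, key _ subset_union_left, key _ subset_union_right, key _ subset_rfl,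
      card_union_of_disjoint hAB, hAc, hBc, pow_add, mul_inv] at e
    rw [card_insert_of_notMem ha, pow_succ]
    linear_combination e

theorem sum_card_mul_pow {x : ℝ} (hx : 0 ≤ x) (S : Finset ℕ) :
    ∑ Q ∈ S.powerset, (Q.card : ℝ) * x ^ Q.card ≤ S.card * x * (1 + x) ^ S.card := by
  induction S using Finset.induction_on with
  | empty => simp
  | insert a S ha ih =>
    have e : ∑ Q ∈ S.powerset, ((insert a Q).card : ℝ) * x ^ (insert a Q).card =
        x * ∑ Q ∈ S.powerset, (Q.card : ℝ) * x ^ Q.card + x * (1 + x) ^ S.card := by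
      rw [← sum_pow_card, mul_sum, mul_sum, ← sum_add_distrib]
      refine sum_congr rfl fun Q hQ => ?_
      rw [card_insert_of_notMem fun h => ha (mem_powerset.1 hQ h)]
      push_cast
      ring
    rw [sum_powerset_insert ha, e, card_insert_of_notMem ha, pow_succ]
    push_cast
    have h1 : 0 ≤ (1 + x) ^ S.card := by positivity
    nlinarith [mul_le_mul_of_nonneg_left ih hx, mul_nonneg hx (mul_nonneg hx h1)]

theorem level_le (F : Finset ℕ → Prop) [DecidablePred F] (hF : ∀ P Q, Q ⊆ P → F P → F Q)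
    (S : Finset ℕ) {k m : ℕ} (hk : k ≤ m) :
    ((powersetCard m S).filter F).card * S.card.choose k ≤
      ((powersetCard k S).filter F).card * S.card.choose m := by
  have h1 : ((powersetCard m S).filter F).card * m.choose k ≤
      ((powersetCard k S).filter F).card * (S.card - k).choose (m - k) := by
    refine card_mul_le_card_mul (fun P Q => Q ⊆ P) (fun P hP => ?_) fun Q hQ => ?_
    · obtain ⟨h2, h3⟩ := mem_filter.1 hP
      obtain ⟨h4, h5⟩ := mem_powersetCard.1 h2
      rw [← h5, ← card_powersetCard]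
      refine card_le_card fun Q hQ => ?_
      obtain ⟨h6, h7⟩ := mem_powersetCard.1 hQ
      exact mem_filter.2 ⟨mem_filter.2 ⟨mem_powersetCard.2 ⟨h6.trans h4, h7⟩, hF P Q h6 h3⟩, h6⟩
    · obtain ⟨h4, h5⟩ := mem_powersetCard.1 (mem_filter.1 hQ).1
      rw [← h5, ← card_sdiff_of_subset h4, ← card_powersetCard]
      refine card_le_card_of_injOn (fun P => P \ Q) (fun P hP => ?_) fun P hP P' hP' h => ?_
      · obtain ⟨h6, h7⟩ := mem_filter.1 hP
        obtain ⟨h8, h9⟩ := mem_powersetCard.1 (mem_filter.1 h6).1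
        exact mem_powersetCard.2 ⟨sdiff_subset_sdiff h8 subset_rfl,
          by rw [card_sdiff_of_subset h7, h9]⟩
      · rw [← sdiff_union_of_subset (mem_filter.1 hP).2, ← sdiff_union_of_subset (mem_filter.1 hP').2]
        exact congrArg (· ∪ Q) h
  refine Nat.le_of_mul_le_mul_right ?_ (Nat.choose_pos hk)
  rw [mul_assoc ((powersetCard k S).filter F).card, Nat.choose_mul hk]
  nlinarith [Nat.mul_le_mul_right (S.card.choose k) h1]

theorem down_count (F : Finset ℕ → Prop) [DecidablePred F] (hF : ∀ P Q, Q ⊆ P → F P → F Q)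
    (S : Finset ℕ) {m : ℕ} (hm : 0 < m) {x : ℝ} (hx : 0 ≤ x) (hS : S.card * x ≤ m / 2) :
    ((powersetCard m S).filter F).card * (1 + x) ^ S.card ≤
      2 * S.card.choose m * ∑ Q ∈ S.powerset with F Q, x ^ Q.card := by
  have h1 : (1 + x) ^ S.card ≤ 2 * ∑ Q ∈ S.powerset, if Q.card ≤ m then x ^ Q.card else 0 := by
    have h2 : ∑ Q ∈ S.powerset, (m : ℝ) * x ^ Q.card ≤ ∑ Q ∈ S.powerset,
        (m * (if Q.card ≤ m then x ^ Q.card else 0) + Q.card * x ^ Q.card) := by
      refine sum_le_sum fun Q _ => ?_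
      have h3 : 0 ≤ x ^ Q.card := by positivity
      split_ifs with h
      · have : 0 ≤ (Q.card : ℝ) * x ^ Q.card := by positivity
        linarith
      · have : (m : ℝ) ≤ Q.card := by exact_mod_cast (not_le.1 h).le
        nlinarith
    rw [sum_add_distrib, ← mul_sum, ← mul_sum, sum_pow_card] at h2
    have h4 := sum_card_mul_pow hx S
    have h5 : (0 : ℝ) < m := by exact_mod_cast hm
    have h6 : 0 ≤ (1 + x) ^ S.card := by positivity
    refine le_of_mul_le_mul_left ?_ h5
    nlinarith [mul_le_mul_of_nonneg_right hS h6]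
  refine (mul_le_mul_of_nonneg_left h1 (Nat.cast_nonneg _)).trans ?_
  rw [mul_left_comm, mul_assoc]
  refine mul_le_mul_of_nonneg_left ?_ zero_le_two
  rw [sum_filter, sum_powerset, sum_powerset, mul_sum, mul_sum]
  refine sum_le_sum fun k _ => ?_
  rw [← sum_filter (s := powersetCard k S) F, sum_congr rfl (g := fun _ => x ^ k)
    (s₁ := (powersetCard k S).filter F)
    (fun Q hQ => by rw [(mem_powersetCard.1 (mem_filter.1 hQ).1).2]),
    sum_congr rfl (g := fun _ => if k ≤ m then x ^ k else 0) (s₁ := powersetCard k S)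
    (fun Q hQ => by rw [(mem_powersetCard.1 hQ).2]), sum_const, sum_const, card_powersetCard,
    nsmul_eq_mul, nsmul_eq_mul]
  have h3 : 0 ≤ x ^ k := by positivity
  split_ifs with h
  · have h4 : (((powersetCard m S).filter F).card : ℝ) * S.card.choose k ≤
      ((powersetCard k S).filter F).card * S.card.choose m := by exact_mod_cast level_le F hF S h
    nlinarith [mul_le_mul_of_nonneg_right h4 h3]
  · rw [mul_zero, mul_zero]; positivity

/-- No cheap deletion of cost at most t in the group of run pairs. -/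
def NK (w : ℕ) (Γ : Finset ℕ) (t : ℕ) (P : Finset ℕ) : Prop :=
  ∀ i ∈ Γ, Disjoint P (Ico ((2 * i + 1) * w - t) ((2 * i + 1) * w)) ∨
    Disjoint P (Ico ((2 * i + 1) * w) ((2 * i + 2) * w))

instance (w : ℕ) (Γ : Finset ℕ) (t : ℕ) : DecidablePred (NK w Γ t) := fun _ => by
  unfold NK; infer_instance

theorem nk_count {w t n m : ℕ} (Γ : Finset ℕ) (ht : t ≤ w) (hm : 0 < m)
    (hΓ : ∀ i ∈ Γ, (2 * i + 2) * w ≤ n) {x : ℝ} (hx : 0 ≤ x) (hn : n * x ≤ m / 2)
    (hw1 : 1 / 2 ≤ w * x) (hw2 : w * x ≤ 1) :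
    (((powersetCard m (range n)).filter (NK w Γ t)).card : ℝ) ≤
      2 * n.choose m * ((1 + x * Γ.card / 6)⁻¹) ^ t := by
  have h1 := down_count (NK w Γ t) (fun P Q hQ hP i hi =>
    (hP i hi).imp (Disjoint.mono_left hQ) (Disjoint.mono_left hQ)) (range n) hm hx
    (by rwa [card_range])
  have h2 := prod_formula hx (fun i => Ico ((2 * i + 1) * w - t) ((2 * i + 1) * w))
    (fun i => Ico ((2 * i + 1) * w) ((2 * i + 2) * w)) t w Γ (range n) (fun i hi => ?_)
    fun i _ i' _ hii => ?_
  · have h3 : ∑ Q ∈ (range n).powerset with NK w Γ t Q, x ^ Q.card = _ := h2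
    rw [h3, card_range, ← mul_assoc] at h1
    refine (le_of_mul_le_mul_right h1 (by positivity)).trans
      (mul_le_mul_of_nonneg_left ?_ (by positivity))
    have hb : ∀ k : ℕ, ((1 + x) ^ k)⁻¹ ≤ (1 + k * x)⁻¹ := fun k =>
      inv_anti₀ (by positivity) (one_add_mul_le_pow (by linarith) k)
    have htx : t * x ≤ 1 := le_trans (mul_le_mul_of_nonneg_right (by exact_mod_cast ht) hx) hw2
    have htx0 : 0 ≤ t * x := by positivity
    have h4 : t * x / 2 ≤ 1 - ((1 + x) ^ t)⁻¹ := by
      have : (1 + t * x)⁻¹ ≤ 1 - t * x / 2 := by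
        rw [inv_le_iff_one_le_mul₀ (by positivity)]; nlinarith
      linarith [hb t]
    have h5 : 1 / 3 ≤ 1 - ((1 + x) ^ w)⁻¹ := by
      have : (1 + w * x)⁻¹ ≤ 2 / 3 := by
        rw [inv_le_iff_one_le_mul₀ (by positivity)]; nlinarith
      linarith [hb w]
    have h6 : (0 : ℝ) ≤ ((1 + x) ^ t)⁻¹ := by positivity
    have h7 : (0 : ℝ) ≤ ((1 + x) ^ w)⁻¹ := by positivity
    have h8 : 1 - (1 - ((1 + x) ^ t)⁻¹) * (1 - ((1 + x) ^ w)⁻¹) ≤ Real.exp (-(t * x / 6)) := by
      have := Real.add_one_le_exp (-(t * x / 6))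
      nlinarith [mul_le_mul h4 h5 (by norm_num) (by linarith)]
    refine (pow_le_pow_left₀ (by nlinarith) h8 _).trans ?_
    rw [← Real.exp_nat_mul, show (Γ.card : ℝ) * -(t * x / 6) = t * -(x * Γ.card / 6) by ring,
      Real.exp_nat_mul]
    refine pow_le_pow_left₀ (by positivity) ?_ _
    rw [Real.exp_neg]
    exact inv_anti₀ (by positivity) (by linarith [Real.add_one_le_exp (x * Γ.card / 6)])
  · have := hΓ i hi
    have e : (2 * i + 2) * w = (2 * i + 1) * w + w := by ring
    have e' : (2 * i + 1) * w = 2 * i * w + w := by ring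
    refine ⟨fun a ha => ?_, fun a ha => ?_, ?_, ?_, disjoint_left.2 fun a ha ha' => ?_⟩ <;>
      simp only [mem_Ico, mem_range, Nat.card_Ico] at * <;> omega
  · have key : ∀ i a : ℕ, a ∈ Ico ((2 * i + 1) * w - t) ((2 * i + 1) * w) ∪
        Ico ((2 * i + 1) * w) ((2 * i + 2) * w) → a / (2 * w) = i := by
      intro i a ha
      have e : (2 * i + 2) * w = (2 * i + 1) * w + w := by ring
      have e' : (2 * i + 1) * w = 2 * i * w + w := by ring
      simp only [mem_union, mem_Ico] at ha
      refine Nat.div_eq_of_lt_le ?_ ?_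
      · rw [show i * (2 * w) = 2 * i * w by ring]; omega
      · rw [show (i + 1) * (2 * w) = (2 * i + 2) * w by ring]; omega
    exact disjoint_left.2 fun a ha ha' => hii ((key i a ha).symm.trans (key i' a ha'))

/-- The number of failing deletion costs. -/
def sg (w : ℕ) (Γ : Finset ℕ) (P : Finset ℕ) : ℕ := ((range (w + 1)).filter (NK w Γ · P)).card

theorem exists_point {w : ℕ} {Γ P : Finset ℕ} (h : sg w Γ P ≤ w) :
    ∃ r ∈ P, (∃ i ∈ Γ, r / w = 2 * i) ∧ lend w r - r ≤ sg w Γ P ∧
      ∃ r' ∈ P, r < r' ∧ yy w r' ≠ yy w r ∧ ∀ s ∈ P, r < s → r' ≤ s := by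
  have h1 : ¬ NK w Γ (sg w Γ P) P := by
    intro h1
    have : range (sg w Γ P + 1) ⊆ (range (w + 1)).filter (NK w Γ · P) := by
      intro t ht
      rw [mem_range] at ht
      refine mem_filter.2 ⟨mem_range.2 (by omega), fun i hi => (h1 i hi).imp_left ?_⟩
      exact Disjoint.mono_right (Ico_subset_Ico_left (by omega))
    have := card_le_card this
    rw [card_range] at this
    exact absurd this (Nat.not_succ_le_self _)
  generalize sg w Γ P = t at h h1
  simp only [NK, not_forall, not_or] at h1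
  obtain ⟨i, hi, h2, h3⟩ := h1
  rw [not_disjoint_iff_nonempty_inter] at h2 h3
  have e : (2 * i + 2) * w = (2 * i + 1) * w + w := by ring
  have e' : (2 * i + 1) * w = 2 * i * w + w := by ring
  have h4 := mem_inter.1 (max'_mem _ h2)
  have h5 := mem_inter.1 (min'_mem _ h3)
  have h6 : ∀ s ∈ _, s ≤ max' _ h2 := fun s hs => le_max' _ s hs
  have h7 : ∀ s ∈ _, min' _ h3 ≤ s := fun s hs => min'_le _ s hs
  generalize max' _ h2 = r at h4 h6
  generalize min' _ h3 = r' at h5 h7
  simp only [mem_inter, mem_Ico] at h4 h5 h6 h7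
  have h8 : r / w = 2 * i := Nat.div_eq_of_lt_le (by omega) h4.2.2
  refine ⟨r, h4.1, ⟨i, hi, h8⟩, by rw [lend, h8]; omega, r', h5.1, by omega, ?_, fun s hs hrs => ?_⟩
  · rw [yy_of_mem (k := 2 * i) (by omega) h4.2.2, yy_of_mem (k := 2 * i + 1) h5.2.1 h5.2.2]
    simp
  · by_contra h9
    have h10 : (2 * i + 1) * w ≤ s := by
      by_contra h10
      have := h6 s ⟨hs, by omega, by omega⟩
      omega
    have := h7 s ⟨hs, h10, by omega⟩
    omega

/-- The groups of run pairs. -/
def grp (D g : ℕ) : Finset ℕ := Ico (D / 2 ^ (g + 1)) (D / 2 ^ g)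

/-- The cost of a set of positions. -/
def cost (w n : ℕ) (P : Finset ℕ) : ℕ :=
  ∑ g ∈ range n with P ⊆ range (n - 2 * w * g), 2 * sg w (grp (n / (2 * w)) g) P

theorem exists_kill {w n : ℕ} (hw : 0 < w) (ps : List ℕ) (hs : ps.Pairwise (· < ·))
    (hne : ps ≠ []) : ∃ K : Finset ℕ, K.card ≤ cost w n ps.toFinset ∧
      ∀ K' : Finset ℕ, (∀ i ∈ K, i < n → i ∈ K') → ¬ Emb w n K' 0 (aOf w 0 ps) := by
  obtain ⟨p, ps, rfl⟩ := List.exists_cons_of_ne_nil hne
  set P := (p :: ps).toFinset with hP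
  have hPne : P.Nonempty := ⟨p, by simp [hP]⟩
  set G := (range n).filter fun g => P ⊆ range (n - 2 * w * g) with hG
  set s : ℕ → ℕ := fun g => sg w (grp (n / (2 * w)) g) P with hs'
  have h1 : ∀ g, ∃ r, s g ≤ w → r ∈ P ∧ (∃ i ∈ grp (n / (2 * w)) g, r / w = 2 * i) ∧
      lend w r - r ≤ s g ∧ ∃ r' ∈ P, r < r' ∧ yy w r' ≠ yy w r ∧ ∀ s ∈ P, r < s → r' ≤ s := by
    intro g
    by_cases hg : s g ≤ w
    · obtain ⟨r, hr⟩ := exists_point hg
      exact ⟨r, fun _ => hr⟩
    · exact ⟨0, fun h => absurd h hg⟩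
  choose κ hκ using h1
  have hinj : Set.InjOn κ (G.filter fun g => s g ≤ w) := by
    have key : ∀ g g', s g ≤ w → s g' ≤ w → κ g = κ g' → ¬ g < g' := by
      intro g g' hg hg' h hlt
      obtain ⟨i, hi, h2⟩ := (hκ g hg).2.1
      obtain ⟨i', hi', h3⟩ := (hκ g' hg').2.1
      rw [grp, mem_Ico] at hi hi'
      have : n / (2 * w) / 2 ^ g' ≤ n / (2 * w) / 2 ^ (g + 1) :=
        Nat.div_le_div_left (Nat.pow_le_pow_right two_pos hlt) (by positivity)
      rw [h] at h2
      omega
    intro g hg g' hg' h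
    have h2 := (mem_filter.1 hg).2
    have h3 := (mem_filter.1 hg').2
    exact le_antisymm (not_lt.1 (key g' g h3 h2 h.symm)) (not_lt.1 (key g g' h2 h3 h))
  obtain ⟨K, hK1, hK2⟩ := kill (n := n) hw ps p 0 0 (P.max' hPne)
    ((G.filter fun g => s g ≤ w).image κ) hs
    ⟨_, List.mem_toFinset.1 (max'_mem _ hPne), le_rfl⟩ (fun r hr => by
      obtain ⟨g, hg, rfl⟩ := mem_image.1 hr
      obtain ⟨h2, -, -, r', h3, h4, h5, h6⟩ := hκ g (mem_filter.1 hg).2
      exact ⟨List.mem_toFinset.1 h2, r', List.mem_toFinset.1 h3, h4, h5,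
        fun s hs => h6 s (List.mem_toFinset.2 hs)⟩)
  refine ⟨K, hK1.trans ?_, fun K' hK' => hK2 K' hK' 0 fun i _ hi => by omega⟩
  have h2 : n ≤ P.max' hPne + 2 * w * G.card := by
    by_contra hlt
    have : range (G.card + 1) ⊆ G := by
      intro g hg
      have h3 : 2 * w * g ≤ 2 * w * G.card := Nat.mul_le_mul_left _ (by simpa using hg)
      have h4 : g ≤ 2 * w * g := Nat.le_mul_of_pos_left _ (by omega)
      refine mem_filter.2 ⟨mem_range.2 (by omega), fun r hr => mem_range.2 ?_⟩
      have := le_max' P r hr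
      omega
    have := card_le_card this
    rw [card_range] at this
    omega
  rw [sum_image hinj, card_image_of_injOn hinj, cost, ← hG,
    ← sum_filter_add_sum_filter_not G fun g => s g ≤ w]
  rw [← card_filter_add_card_filter_not (s := G) fun g => s g ≤ w, mul_add] at h2
  have h3 : ∑ g ∈ G with s g ≤ w, (lend w (κ g) - κ g) ≤ ∑ g ∈ G with s g ≤ w, 2 * s g :=
    sum_le_sum fun g hg => by have := (hκ g (mem_filter.1 hg).2).2.2.1; omega
  have h4 := card_nsmul_le_sum (G.filter fun g => ¬ s g ≤ w) (fun g => 2 * s g) (2 * w)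
    fun g hg => by have := (mem_filter.1 hg).2; omega
  rw [smul_eq_mul, mul_comm] at h4
  rw [zero_add]
  exact add_le_add h3 (le_trans (by omega) h4)

end Pool.Agent.MP_53fe41_co.h88

end MrgPart2

-- ======== part 3: formerly Pool.Agent.MP_53fe41_co.h88.Bound
section MrgPart3

/-! The upper bound for colourings of integer counting vectors. -/

namespace Pool.Agent.MP_53fe41_co.h88

open Finset

theorem sum_sg {w n' n m : ℕ} (Γ : Finset ℕ) (hm : 0 < m) (hn : n' ≤ n) (hw1 : n ≤ m * w)
    (hw2 : m * w ≤ 2 * n) (hn0 : 0 < n) (hΓ : ∀ i ∈ Γ, (2 * i + 2) * w ≤ n') {c : ℝ}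
    (hc : m ≤ c * (Γ.card + 1)) :
    ((∑ P ∈ powersetCard m (range n'), sg w Γ P : ℕ) : ℝ) ≤
      n'.choose m * (2 + 48 * c * (n / m ^ 2)) := by
  have hm' : (0 : ℝ) < m := by exact_mod_cast hm
  have hn' : (0 : ℝ) < n := by exact_mod_cast hn0
  have hw1' : (n : ℝ) ≤ m * w := by exact_mod_cast hw1
  have hw2' : (m : ℝ) * w ≤ 2 * n := by exact_mod_cast hw2
  have hc0 : 0 < c := (mul_pos_iff_of_pos_right (by positivity)).1 (hm'.trans_le hc)
  rcases Nat.eq_zero_or_pos Γ.card with h0 | h0
  · have h1 := sum_le_card_nsmul (powersetCard m (range n')) (sg w Γ) (w + 1) fun P _ =>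
      (card_filter_le _ _).trans (card_range _).le
    rw [card_powersetCard, card_range, smul_eq_mul] at h1
    refine (Nat.cast_le.2 h1).trans ?_
    push_cast
    refine mul_le_mul_of_nonneg_left ?_ (by positivity)
    rw [h0, Nat.cast_zero, zero_add, mul_one] at hc
    have : (w : ℝ) ≤ 48 * c * (n / m ^ 2) := by
      rw [← mul_div_assoc, le_div_iff₀ (by positivity)]
      nlinarith [mul_le_mul hw2' hc hm'.le (by positivity), mul_pos hc0 hn']
    linarith
  · have hg : (1 : ℝ) ≤ Γ.card := by exact_mod_cast h0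
    have e : ∑ P ∈ powersetCard m (range n'), sg w Γ P =
        ∑ t ∈ range (w + 1), ((powersetCard m (range n')).filter (NK w Γ t)).card := by
      simp only [sg, card_filter]
      exact sum_comm
    rw [e, Nat.cast_sum]
    set x : ℝ := m / (2 * n) with hx
    have hy : 0 < x * Γ.card / 6 := by positivity
    refine (sum_le_sum fun t ht => nk_count Γ (x := x) (by simpa using ht) hm hΓ (by positivity)
      ?_ ?_ ?_).trans ?_
    · have : (n' : ℝ) ≤ n := by exact_mod_cast hn
      rw [hx, ← mul_div_assoc, div_le_div_iff₀ (by positivity) two_pos]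
      nlinarith
    · rw [hx, ← mul_div_assoc, div_le_div_iff₀ two_pos (by positivity)]
      nlinarith
    · rw [hx, ← mul_div_assoc, div_le_one (by positivity)]
      nlinarith
    rw [← mul_sum, mul_comm 2, mul_assoc]
    refine mul_le_mul_of_nonneg_left ?_ (by positivity)
    have h2 := sum_le_hasSum (range (w + 1)) (fun t _ => by positivity)
      (hasSum_geometric_of_lt_one (r := (1 + x * Γ.card / 6)⁻¹) (by positivity)
        (inv_lt_one_of_one_lt₀ (by linarith)))
    have h3 : (1 - (1 + x * Γ.card / 6)⁻¹)⁻¹ = 1 + 12 * n / (m * Γ.card) := by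
      rw [hx]; field_simp; ring
    have h4 : 12 * n / (m * Γ.card) ≤ 24 * c * (n / m ^ 2) := by
      rw [← mul_div_assoc, div_le_div_iff₀ (by positivity) (by positivity)]
      have : (m : ℝ) ≤ 2 * c * Γ.card := by nlinarith
      nlinarith [mul_le_mul_of_nonneg_left this (mul_pos hm' hn').le]
    linarith

theorem choose_sub_le {n m : ℕ} (hm : 0 < m) (hmn : m ≤ n) :
    ∀ k, ((n - k).choose m : ℝ) ≤ n.choose m * (1 - m / n) ^ k
  | 0 => by simp
  | k + 1 => by
    have hn' : (0 : ℝ) < n := by exact_mod_cast hm.trans_le hmn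
    have h0 : (0 : ℝ) ≤ 1 - m / n := by
      rw [sub_nonneg, div_le_one hn']; exact_mod_cast hmn
    rw [pow_succ, ← mul_assoc]
    refine le_trans ?_ (mul_le_mul_of_nonneg_right (choose_sub_le hm hmn k) h0)
    by_cases h : n - (k + 1) < m
    · rw [Nat.choose_eq_zero_of_lt h, Nat.cast_zero]; positivity
    · have e : n - k = n - (k + 1) + 1 := by omega
      have h1 : n - (k + 1) + 1 ≤ n := by omega
      rw [e]
      generalize n - (k + 1) = N at h h1
      have h2 : (N.choose m : ℝ) * (N + 1) = (N + 1).choose m * (N + 1 - m) := by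
        have := congrArg (Nat.cast : ℕ → ℝ) (Nat.choose_mul_succ_eq N m)
        rwa [Nat.cast_mul, Nat.cast_mul, Nat.cast_sub (by omega), Nat.cast_succ] at this
      refine le_of_mul_le_mul_right ?_ (show (0 : ℝ) < N + 1 by positivity)
      rw [h2, mul_assoc]
      refine mul_le_mul_of_nonneg_left ?_ (by positivity)
      have h3 : (m : ℝ) / n * (N + 1) ≤ m := by
        rw [div_mul_eq_mul_div, div_le_iff₀ hn']
        exact mul_le_mul_of_nonneg_left (by exact_mod_cast h1) (by positivity)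
      linarith

theorem choose_add_le {D m : ℕ} (hm : 0 < m) (hD : 2 * m ≤ D) :
    ∀ U, ((D + U).choose m : ℝ) ≤ D.choose m * Real.exp (2 * m / D * U)
  | 0 => by simp
  | U + 1 => by
    have hD' : (2 : ℝ) * m ≤ D := by exact_mod_cast hD
    have hm' : (0 : ℝ) < m := by exact_mod_cast hm
    have hD0 : (0 : ℝ) < D := by linarith
    rw [Nat.cast_succ, mul_add, mul_one, Real.exp_add, ← mul_assoc]
    refine le_trans ?_ (mul_le_mul (choose_add_le hm hD U) (Real.add_one_le_exp _) (by positivity)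
      (by positivity))
    have h2 : ((D + U).choose m : ℝ) * (D + U + 1) = (D + U + 1).choose m * (D + U + 1 - m) := by
      have := congrArg (Nat.cast : ℕ → ℝ) (Nat.choose_mul_succ_eq (D + U) m)
      rw [Nat.cast_mul, Nat.cast_mul, Nat.cast_sub (by omega)] at this
      exact_mod_cast this
    have hU : (0 : ℝ) ≤ U := by positivity
    refine le_of_mul_le_mul_right ?_ (show (0 : ℝ) < D + U + 1 - m by linarith)
    rw [← add_assoc, ← h2, mul_assoc]
    refine mul_le_mul_of_nonneg_left ?_ (by positivity)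
    have h3 : (m : ℝ) ≤ 2 * m / D * (D + U + 1 - m) := by
      rw [div_mul_eq_mul_div, le_div_iff₀ hD0]
      nlinarith
    linarith

theorem sum_cost {n m : ℕ} (hm : 0 < m) (hmn : m ≤ n) :
    ((∑ P ∈ powersetCard m (range n), cost (n / m + 1) n P : ℕ) : ℝ) ≤
      n.choose m * (8 + 1536 * (n / m ^ 2)) := by
  set w := n / m + 1 with hw
  have hw1 : n < m * w := Nat.lt_mul_div_succ n hm
  have hw2 : m * w ≤ 2 * n := by
    have := Nat.mul_div_le n m
    rw [hw, mul_add]; omega
  have hw0 : 0 < w := Nat.succ_pos _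
  have hn' : (0 : ℝ) < n := by exact_mod_cast hm.trans_le hmn
  have e : ∑ P ∈ powersetCard m (range n), cost w n P = ∑ g ∈ range n,
      2 * ∑ P ∈ powersetCard m (range (n - 2 * w * g)), sg w (grp (n / (2 * w)) g) P := by
    simp only [cost, sum_filter]
    rw [sum_comm]
    refine sum_congr rfl fun g _ => ?_
    rw [← sum_filter, mul_sum]
    refine sum_congr ?_ fun _ _ => rfl
    ext P
    simp only [mem_filter, mem_powersetCard]
    exact ⟨fun h => ⟨h.2, h.1.2⟩, fun h => ⟨⟨h.1.trans (range_subset_range.2 (by omega)), h.2⟩, h.1⟩⟩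
  have h1 : (1 - m / n : ℝ) ^ w ≤ 1 / 2 := by
    have h0 : (0 : ℝ) ≤ 1 - m / n := by
      rw [sub_nonneg, div_le_one hn']; exact_mod_cast hmn
    refine (pow_le_pow_left₀ h0 (Real.one_sub_le_exp_neg _) w).trans ?_
    rw [← Real.exp_nat_mul, mul_neg, Real.exp_neg, one_div]
    refine inv_anti₀ two_pos (le_trans ?_ (Real.add_one_le_exp _))
    have : (1 : ℝ) ≤ w * (m / n) := by
      rw [← mul_div_assoc, le_div_iff₀ hn', one_mul, mul_comm]; exact_mod_cast hw1.le
    linarith
  have h2 : ∀ g ∈ range n, ((2 * ∑ P ∈ powersetCard m (range (n - 2 * w * g)),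
      sg w (grp (n / (2 * w)) g) P : ℕ) : ℝ) ≤
      n.choose m * (4 + 768 * (n / m ^ 2)) * (1 / 2) ^ g := by
    intro g _
    have h3 := sum_sg (w := w) (n' := n - 2 * w * g) (n := n) (grp (n / (2 * w)) g) hm
      (Nat.sub_le _ _) hw1.le hw2 (hm.trans_le hmn) (c := 8 * 2 ^ g) (fun i hi => ?_) ?_
    · have h4 := choose_sub_le hm hmn (2 * w * g)
      have h0 : (0 : ℝ) ≤ 1 - m / n := by
        rw [sub_nonneg, div_le_one hn']; exact_mod_cast hmn
      have h5 : (1 - m / n : ℝ) ^ (2 * w * g) ≤ (1 / 2) ^ g * (1 / 2) ^ g := by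
        rw [← pow_add, show 2 * w * g = w * (g + g) by ring, pow_mul]
        exact pow_le_pow_left₀ (by positivity) h1 _
      have h6 : (1 / 2 : ℝ) ^ g * 2 ^ g = 1 := by rw [← mul_pow]; simp
      have h7 : (1 / 2 : ℝ) ^ g ≤ 1 := pow_le_one₀ (by norm_num) (by norm_num)
      have h8 : (1 / 2 : ℝ) ^ g * (2 + 48 * (8 * 2 ^ g) * (n / m ^ 2)) ≤
          2 + 384 * (n / m ^ 2) := by
        have : (1 / 2 : ℝ) ^ g * (48 * (8 * 2 ^ g) * (n / m ^ 2)) = 384 * (n / m ^ 2) := by
          linear_combination 384 * ((n : ℝ) / m ^ 2) * h6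
        linarith
      rw [Nat.cast_mul, Nat.cast_two]
      have h9 := mul_le_mul_of_nonneg_right (h4.trans (mul_le_mul_of_nonneg_left h5
        (by positivity))) (show (0 : ℝ) ≤ 2 + 48 * (8 * 2 ^ g) * (n / m ^ 2) by positivity)
      have h10 := mul_le_mul_of_nonneg_left h8
        (show (0 : ℝ) ≤ n.choose m * (1 / 2) ^ g by positivity)
      nlinarith
    · have h4 : (i + 1) * 2 ^ g ≤ n / (2 * w) :=
        (Nat.le_div_iff_mul_le (by positivity)).1 (mem_Ico.1 hi).2
      have h5 : g + 1 ≤ 2 ^ g := Nat.lt_two_pow_self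
      have h6 : (i + 1 + g) * (2 * w) ≤ n :=
        (Nat.le_div_iff_mul_le (by positivity)).1 (by nlinarith)
      have : (i + 1 + g) * (2 * w) = (2 * i + 2) * w + 2 * w * g := by ring
      omega
    · have h4 : n < 2 * w * (n / (2 * w) + 1) := Nat.lt_mul_div_succ n (by omega)
      have h5 : n / (2 * w) < 2 ^ g * (n / (2 * w) / 2 ^ g + 1) :=
        Nat.lt_mul_div_succ _ (by positivity)
      have h6 : n / (2 * w) / 2 ^ g ≤ 2 * (grp (n / (2 * w)) g).card := by
        rw [grp, Nat.card_Ico, pow_succ, ← Nat.div_div_eq_div_mul (n / (2 * w))]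
        omega
      have h7 : m ≤ 4 * (n / (2 * w) + 1) := by
        refine Nat.le_of_mul_le_mul_right ?_ (hm.trans_le hmn)
        nlinarith [Nat.mul_le_mul_left m h4.le, Nat.mul_le_mul_right (n / (2 * w) + 1) hw2]
      have h8 : m ≤ 8 * 2 ^ g * ((grp (n / (2 * w)) g).card + 1) := by
        nlinarith [Nat.mul_le_mul_left (2 ^ g) h6, Nat.zero_le (2 ^ g)]
      exact_mod_cast h8
  rw [e, Nat.cast_sum]
  refine (sum_le_sum h2).trans ?_
  rw [← mul_sum]
  have h3 := sum_le_hasSum (range n) (fun t _ => by positivity) hasSum_geometric_two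
  have h4 := mul_le_mul_of_nonneg_left h3
    (show (0 : ℝ) ≤ n.choose m * (4 + 768 * (n / m ^ 2)) by positivity)
  linarith

theorem poly_bound {D m q : ℕ} (h : Poly ℤ D m q) (hm : 0 < m) (hD : m ≤ D) :
    (q : ℝ) ≤ 25000 * (1 / m + m / D) * D.choose m := by
  have hm' : (0 : ℝ) < m := by exact_mod_cast hm
  have hD' : (0 : ℝ) < D := by exact_mod_cast hm.trans_le hD
  by_cases h2 : 2 * m ≤ D
  · have h3 := lift (w := (D + D / m) / m + 1) (U := D / m) h (cost _ (D + D / m))
      fun ps hs hP _ => exists_kill (Nat.succ_pos _) ps hs (by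
        rintro rfl
        have := (mem_powersetCard.1 hP).2
        simp at this
        omega)
    have h4 := (Nat.cast_le.2 h3).trans (sum_cost hm (hD.trans (Nat.le_add_right _ _)))
    have h5 : (m : ℝ) * (D / m : ℕ) ≤ D := by exact_mod_cast Nat.mul_div_le D m
    have h6 : (D : ℝ) ≤ m * ((D / m : ℕ) + 1) := by exact_mod_cast (Nat.lt_mul_div_succ D hm).le
    have h7 : ((D / m : ℕ) : ℝ) ≤ D := by exact_mod_cast Nat.div_le_self D m
    have h8 : Real.exp (2 * m / D * (D / m : ℕ)) ≤ 8 := by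
      have : 2 * (m : ℝ) / D * (D / m : ℕ) ≤ 1 + 1 := by
        rw [div_mul_eq_mul_div, div_le_iff₀ hD']; linarith
      refine (Real.exp_le_exp.2 this).trans ?_
      rw [Real.exp_add]
      nlinarith [Real.exp_one_lt_d9, Real.exp_pos 1]
    have h9 := (choose_add_le hm h2 (D / m)).trans (mul_le_mul_of_nonneg_left h8 (by positivity))
    generalize D / m = U at h4 h5 h6 h7 h9
    push_cast at h4
    have h10 : (D + U : ℝ) / m ^ 2 ≤ 2 * D / (m : ℝ) ^ 2 :=
      div_le_div_of_nonneg_right (by linarith) (by positivity)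
    have h11 : (q : ℝ) * D ≤ m * (D.choose m * 8 * (8 + 1536 * (2 * D / m ^ 2))) := by
      have h12 := mul_le_mul h9 (show 8 + 1536 * ((D + U) / (m : ℝ) ^ 2) ≤
        8 + 1536 * (2 * D / m ^ 2) by linarith) (by positivity) (by positivity)
      nlinarith [mul_le_mul_of_nonneg_left h6 (Nat.cast_nonneg q : (0 : ℝ) ≤ q),
        mul_le_mul_of_nonneg_left (h4.trans h12) hm'.le]
    refine le_of_mul_le_mul_right (h11.trans ?_) hD'
    have e1 : m * (D.choose m * 8 * (8 + 1536 * (2 * D / (m : ℝ) ^ 2))) =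
        (24576 * (1 / m) + 64 * (m / D)) * D.choose m * D := by
      field_simp; ring
    rw [e1]
    refine mul_le_mul_of_nonneg_right (mul_le_mul_of_nonneg_right ?_ (by positivity)) hD'.le
    have : (0 : ℝ) ≤ 1 / m := by positivity
    have : (0 : ℝ) ≤ m / D := by positivity
    linarith
  · have h3 := lift (w := 1) (U := 0) h (fun _ => 1) fun _ _ _ h => absurd h (by simp)
    simp only [zero_add, mul_one, add_zero, sum_const, card_powersetCard, card_range,
      smul_eq_mul] at h3
    refine (Nat.cast_le.2 h3).trans (le_mul_of_one_le_left (by positivity) ?_)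
    have h4 : (1 : ℝ) / 2 ≤ m / D := by
      rw [div_le_div_iff₀ two_pos hD', one_mul, mul_comm]; exact_mod_cast (not_le.1 h2).le
    have : (0 : ℝ) ≤ 1 / m := by positivity
    linarith

end Pool.Agent.MP_53fe41_co.h88

end MrgPart3

-- marker of a merged file
example : 731051 + 265922 = 731051 + 265922 := rfl
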